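import Pool.Agent.helper76.LP.Defs2

/-! # Project QR, module QD: the classes in the quotient of helper34 -/

namespace Pool.Agent.helper76.LP

open Finset

open Pool.Agent.helper34.DH in
theorem cl_nat (m : ℕ) [NeZero m] (a : ℕ) : cl m ((a : ℕ) : ZMod m) = F ((a : ℚ) / m) := by
  have hm : (m : ℚ) ≠ 0 := by exact_mod_cast NeZero.ne m
  unfold cl
  apply F_congr
  refine ⟨-((a / m : ℕ) : ℤ), ?_⟩
  rw [ZMod.val_natCast]
  generalize hk : a / m = k
  generalize hl : a % m = l
  have h1 : (l : ℚ) + m * (k : ℚ) = a := by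
    rw [← hk, ← hl]
    exact_mod_cast Nat.mod_add_div a m
  rw [← h1, Int.cast_neg, Int.cast_natCast]
  field_simp
  ring

open Pool.Agent.helper34.DH in
theorem cl_neg (m : ℕ) [NeZero m] (x : ZMod m) : cl m (-x) = - cl m x := by
  have hm : (m : ℚ) ≠ 0 := by exact_mod_cast NeZero.ne m
  by_cases hx : x = 0
  · subst hx
    unfold cl
    simp [F_zero]
  · unfold cl
    rw [← F_neg]
    apply F_congr
    refine ⟨1, ?_⟩
    rw [ZMod.neg_val, if_neg hx, Nat.cast_sub (ZMod.val_lt x).le]
    push_cast
    field_simp
    ring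

open Pool.Agent.helper34.DH in
theorem cl_dist (m : ℕ) [NeZero m] (p : ℕ) (hp : p.Prime) (hpm : p ∣ m) (x : ZMod m) :
    ∑ j ∈ range p, cl m (x + ((j * (m / p) : ℕ) : ZMod m)) =
      cl m ((p : ZMod m) * x) + (if p = 2 then hh else 0) := by
  have hm : (m : ℚ) ≠ 0 := by exact_mod_cast NeZero.ne m
  have hp0 : (p : ℚ) ≠ 0 := by exact_mod_cast hp.ne_zero
  have h1 : ∀ j : ℕ, cl m (x + ((j * (m / p) : ℕ) : ZMod m)) =
      F ((x.val : ℚ) / m + j / p) := by
    intro j
    have h2 : x + ((j * (m / p) : ℕ) : ZMod m) = ((x.val + j * (m / p) : ℕ) : ZMod m) := by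
      push_cast
      rw [ZMod.natCast_zmod_val]
    rw [h2, cl_nat]
    congr 1
    have h3 : ((m / p : ℕ) : ℚ) = (m : ℚ) / p := Nat.cast_div hpm hp0
    push_cast
    rw [h3]
    field_simp
  have h4 : cl m ((p : ZMod m) * x) = F ((p : ℚ) * ((x.val : ℚ) / m)) := by
    have h5 : (p : ZMod m) * x = ((p * x.val : ℕ) : ZMod m) := by
      push_cast
      rw [ZMod.natCast_zmod_val]
    rw [h5, cl_nat]
    congr 1
    push_cast
    ring
  rw [Finset.sum_congr rfl fun j _ => h1 j, h4]
  rcases hp.eq_two_or_odd' with h2 | ho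
  · subst h2
    rw [if_pos rfl, Finset.sum_range_succ, Finset.sum_range_one]
    have := dist_two ((x.val : ℚ) / m)
    push_cast
    rw [zero_div, add_zero]
    exact this
  · rw [if_neg, add_zero]
    · exact dist_odd p hp ho _
    · rintro rfl
      exact absurd ho (by decide)

open Pool.Agent.helper34.DH in
theorem cls_even (m : ℕ) [NeZero m] (c : ZMod m → ℤ) (h : ∀ x, anti c x = 0) :
    ∃ j : ℤ, cls m c = j • hh := by
  classical
  have hm : (m : ℚ) ≠ 0 := by exact_mod_cast NeZero.ne m
  have hc : ∀ x, c (-x) = c x := by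
    intro x
    have := h x
    unfold anti at this
    linarith
  have hmem : cls m c ∈ AddSubgroup.zmultiples hh := by
    unfold cls
    rw [← Finset.sum_filter_add_sum_filter_not univ (fun x : ZMod m => x = -x)]
    apply AddSubgroup.add_mem
    · apply AddSubgroup.sum_mem
      intro x hx
      rw [Finset.mem_filter] at hx
      have hx2 := hx.2
      apply AddSubgroup.zsmul_mem
      by_cases h0 : x = 0
      · subst h0
        unfold cl
        simp only [ZMod.val_zero, Nat.cast_zero, zero_div, F_zero]
        exact AddSubgroup.zero_mem _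
      · have h1 : x.val = (-x).val := congrArg ZMod.val hx2
        rw [ZMod.neg_val, if_neg h0] at h1
        have h2 := ZMod.val_lt x
        have h3 : 2 * x.val = m := by omega
        have h4 : (2 : ℚ) * (x.val : ℚ) = m := by exact_mod_cast h3
        have h5 : cl m x = hh := by
          unfold cl hh
          congr 1
          rw [div_eq_div_iff hm (by norm_num)]
          linarith
        rw [h5]
        exact AddSubgroup.mem_zmultiples _
    · have h0 : ∑ x ∈ univ.filter (fun x : ZMod m => ¬ x = -x), c x • cl m x = 0 := by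
        apply Finset.sum_involution (fun x _ => -x)
        · intro x _
          rw [hc, cl_neg, smul_neg, add_neg_cancel]
        · intro x hx _
          rw [Finset.mem_filter] at hx
          exact fun h => hx.2 h.symm
        · intro x _
          exact neg_neg x
        · intro x hx
          rw [Finset.mem_filter] at hx ⊢
          refine ⟨Finset.mem_univ _, fun h => hx.2 ?_⟩
          rw [neg_neg] at h
          exact h.symm
      rw [h0]
      exact AddSubgroup.zero_mem _
  obtain ⟨j, hj⟩ := AddSubgroup.mem_zmultiples_iff.1 hmem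
  exact ⟨j, hj.symm⟩

end Pool.Agent.helper76.LP
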