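import Pool.Agent.helper76.LP.Defs

/-! # Project QR, module SD: the distribution relation of the sawtooth -/

namespace Pool.Agent.helper76.LP

open Finset

theorem sum_fibre (m : ℕ) [NeZero m] (p : ℕ) (hp : p.Prime) (hpm : p ∣ m) (f : ZMod m → ℤ)
    (x : ZMod m) :
    ∑ j ∈ range p, f (x + ((j * (m / p) : ℕ) : ZMod m)) =
      ∑ z ∈ univ.filter (fun z : ZMod m => (p : ZMod m) * z = (p : ZMod m) * x), f z := by
  classical
  have hm : 0 < m := Nat.pos_of_ne_zero (NeZero.ne m)
  obtain ⟨e, he⟩ := hpm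
  have hp0 : 0 < p := hp.pos
  have he0 : 0 < e := Nat.pos_of_ne_zero (by rintro rfl; simp at he; omega)
  have hmp : m / p = e := by rw [he]; exact Nat.mul_div_cancel_left _ hp0
  rw [hmp]
  apply Finset.sum_nbij (fun j => x + ((j * e : ℕ) : ZMod m))
  · intro j _
    rw [Finset.mem_filter]
    refine ⟨Finset.mem_univ _, ?_⟩
    have h1 : (p : ZMod m) * ((j * e : ℕ) : ZMod m) = 0 := by
      rw [← Nat.cast_mul, ZMod.natCast_eq_zero_iff]
      exact ⟨j, by rw [he]; ring⟩
    rw [mul_add, h1, add_zero]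
  · intro i hi j hj hij
    have hi' : i < p := Finset.mem_range.1 hi
    have hj' : j < p := Finset.mem_range.1 hj
    simp only at hij
    have h1 : ((i * e : ℕ) : ZMod m) = ((j * e : ℕ) : ZMod m) := add_left_cancel hij
    have h2 := congrArg ZMod.val h1
    rw [ZMod.val_natCast, ZMod.val_natCast, Nat.mod_eq_of_lt, Nat.mod_eq_of_lt] at h2
    · exact Nat.eq_of_mul_eq_mul_right he0 h2
    · rw [he]; exact Nat.mul_lt_mul_of_pos_right hj' he0
    · rw [he]; exact Nat.mul_lt_mul_of_pos_right hi' he0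
  · intro z hz
    have hz' : (p : ZMod m) * z = (p : ZMod m) * x := by
      have := Finset.mem_coe.1 hz
      rw [Finset.mem_filter] at this
      exact this.2
    have h1 : (p : ZMod m) * (z - x) = 0 := by rw [mul_sub, hz', sub_self]
    have h2 : ((p * (z - x).val : ℕ) : ZMod m) = 0 := by
      push_cast
      rw [ZMod.natCast_zmod_val]; exact h1
    rw [ZMod.natCast_eq_zero_iff] at h2
    have h2' : p * e ∣ p * (z - x).val := he ▸ h2
    have h3 := Nat.dvd_of_mul_dvd_mul_left hp0 h2'
    obtain ⟨j, hj⟩ := h3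
    have h4 := ZMod.val_lt (z - x)
    refine ⟨j, ?_, ?_⟩
    · rw [Finset.mem_coe, Finset.mem_range]
      rw [hj] at h4
      by_contra hc
      push Not at hc
      have : p * e ≤ e * j := by rw [mul_comm p e]; exact Nat.mul_le_mul_left e hc
      omega
    · have h5 : ((j * e : ℕ) : ZMod m) = z - x := by
        rw [mul_comm, ← hj, ZMod.natCast_zmod_val]
      simp only
      rw [h5]; ring
  · intro j _; rfl

theorem sum_saw_range (m : ℕ) [NeZero m] (p e r : ℕ) (hp : p.Prime) (he : m = p * e)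
    (hr : r < e) :
    ∑ j ∈ range p, saw m (((r + j * e : ℕ) : ZMod m)) = saw m (((p * r : ℕ) : ZMod m)) := by
  have hm : 0 < m := Nat.pos_of_ne_zero (NeZero.ne m)
  have hp0 : 0 < p := hp.pos
  have he0 : 0 < e := by omega
  have hval : ∀ a : ℕ, a < m → saw m ((a : ℕ) : ZMod m) = if a = 0 then 0 else 2 * (a : ℤ) - m := by
    intro a ha
    unfold saw
    have h1 : ((a : ℕ) : ZMod m) = 0 ↔ a = 0 := by
      rw [ZMod.natCast_eq_zero_iff]
      constructor
      · intro h
        exact Nat.eq_zero_of_dvd_of_lt h ha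
      · rintro rfl; exact dvd_zero _
    rw [ZMod.val_natCast, Nat.mod_eq_of_lt ha]
    simp only [h1]
  have hlt : ∀ j ∈ range p, r + j * e < m := by
    intro j hj
    have hj' : j + 1 ≤ p := Finset.mem_range.1 hj
    calc r + j * e < e + j * e := by omega
      _ = (j + 1) * e := by ring
      _ ≤ p * e := Nat.mul_le_mul_right e hj'
      _ = m := he.symm
  have hpr : p * r < m := by
    rw [he]; exact Nat.mul_lt_mul_of_pos_left hr hp0
  have hgauss : (∑ j ∈ range p, (j : ℤ)) * 2 = p * (p - 1) := by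
    have := Finset.sum_range_id_mul_two p
    have h2 : ((∑ j ∈ range p, j : ℕ) : ℤ) * 2 = ((p * (p - 1) : ℕ) : ℤ) := by exact_mod_cast this
    rw [Nat.cast_mul, Nat.cast_sub hp.one_lt.le] at h2
    push_cast at h2
    exact h2
  have hmz : (m : ℤ) = p * e := by exact_mod_cast he
  have hsum : ∑ j ∈ range p, (2 * ((r + j * e : ℕ) : ℤ) - m) = 2 * ((p * r : ℕ) : ℤ) - m := by
    rw [Finset.sum_sub_distrib, ← Finset.mul_sum]
    push_cast
    rw [Finset.sum_add_distrib, ← Finset.sum_mul]
    simp only [Finset.sum_const, Finset.card_range, nsmul_eq_mul]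
    rw [hmz]
    have : 2 * ((p : ℤ) * r + (∑ i ∈ range p, (i : ℤ)) * e) =
        2 * ((p : ℤ) * r) + ((∑ i ∈ range p, (i : ℤ)) * 2) * e := by ring
    rw [this, hgauss]
    ring
  rw [hval _ hpr]
  by_cases h0 : r = 0
  · subst h0
    rw [mul_zero, if_pos rfl]
    rw [Finset.sum_congr rfl fun j hj => hval _ (hlt j hj)]
    have h1 : ∑ j ∈ range p, (if 0 + j * e = 0 then (0 : ℤ) else 2 * ((0 + j * e : ℕ) : ℤ) - m) =
        ∑ j ∈ range p, ((2 * ((0 + j * e : ℕ) : ℤ) - m) + if j = 0 then (m : ℤ) else 0) := by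
      apply Finset.sum_congr rfl
      intro j _
      by_cases hj : j = 0
      · subst hj; simp
      · rw [if_neg, if_neg hj, add_zero]
        intro h
        have : j * e = 0 := by omega
        rcases Nat.mul_eq_zero.1 this with h | h <;> omega
    rw [h1, Finset.sum_add_distrib, hsum, Finset.sum_ite_eq' (range p) 0 (fun _ => (m : ℤ)),
      if_pos (Finset.mem_range.2 hp0)]
    simp
  · rw [if_neg (by
      intro h
      rcases Nat.mul_eq_zero.1 h with h | h <;> omega)]
    rw [← hsum]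
    apply Finset.sum_congr rfl
    intro j hj
    rw [hval _ (hlt j hj), if_neg (by omega)]

theorem saw_dist (m : ℕ) [NeZero m] (p : ℕ) (hp : p.Prime) (hpm : p ∣ m) (t : (ZMod m)ˣ)
    (x : ZMod m) :
    ∑ j ∈ range p, saw m ((t : ZMod m) * (x + ((j * (m / p) : ℕ) : ZMod m))) =
      saw m ((t : ZMod m) * ((p : ZMod m) * x)) := by
  classical
  have hm : 0 < m := Nat.pos_of_ne_zero (NeZero.ne m)
  obtain ⟨e, he⟩ := hpm
  have hp0 : 0 < p := hp.pos
  have he0 : 0 < e := Nat.pos_of_ne_zero (by rintro rfl; simp at he; omega)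
  have hmp : m / p = e := by rw [he]; exact Nat.mul_div_cancel_left _ hp0
  have hpm : p ∣ m := ⟨e, he⟩
  rw [sum_fibre m p hp hpm (fun z => saw m ((t : ZMod m) * z)) x]
  set y : ZMod m := (t : ZMod m) * x with hy
  set r : ℕ := y.val % e with hr
  have hre : r < e := Nat.mod_lt _ he0
  have hpr : (p : ZMod m) * ((r : ℕ) : ZMod m) = (p : ZMod m) * y := by
    have h1 : y = ((r + e * (y.val / e) : ℕ) : ZMod m) := by
      rw [hr, Nat.mod_add_div, ZMod.natCast_zmod_val]
    rw [h1]
    have h2 : ((p * (e * (y.val / e)) : ℕ) : ZMod m) = 0 := by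
      rw [ZMod.natCast_eq_zero_iff]
      refine ⟨y.val / e, ?_⟩
      generalize y.val / e = k
      rw [he]; ring
    rw [Nat.cast_add, mul_add, ← Nat.cast_mul p (e * (y.val / e)), h2, add_zero]
  have h1 : ∑ z ∈ univ.filter (fun z : ZMod m => (p : ZMod m) * z = (p : ZMod m) * x),
      saw m ((t : ZMod m) * z) =
      ∑ w ∈ univ.filter (fun w : ZMod m => (p : ZMod m) * w = (p : ZMod m) * ((r : ℕ) : ZMod m)),
        saw m w := by
    apply Finset.sum_nbij (fun z => (t : ZMod m) * z)
    · intro z hz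
      rw [Finset.mem_filter] at hz ⊢
      refine ⟨Finset.mem_univ _, ?_⟩
      rw [hpr, hy, mul_left_comm, hz.2, mul_left_comm]
    · intro z _ w _ h
      simp only at h
      exact (Units.mul_right_inj t).1 h
    · intro w hw
      have hw' : (p : ZMod m) * w = (p : ZMod m) * ((r : ℕ) : ZMod m) := by
        have := Finset.mem_coe.1 hw
        rw [Finset.mem_filter] at this
        exact this.2
      refine ⟨((t⁻¹ : (ZMod m)ˣ) : ZMod m) * w, ?_, ?_⟩
      · rw [Finset.mem_coe, Finset.mem_filter]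
        refine ⟨Finset.mem_univ _, ?_⟩
        rw [mul_left_comm, hw', hpr, hy, mul_left_comm (p : ZMod m), ← mul_assoc, Units.inv_mul,
          one_mul]
      · simp only
        rw [← mul_assoc, Units.mul_inv, one_mul]
    · intro z _; rfl
  rw [h1, ← sum_fibre m p hp hpm (fun z => saw m z) ((r : ℕ) : ZMod m), hmp]
  have h2 : (t : ZMod m) * ((p : ZMod m) * x) = ((p * r : ℕ) : ZMod m) := by
    rw [mul_left_comm, ← hy, ← hpr, Nat.cast_mul]
  rw [h2, ← sum_saw_range m p e r hp he hre]
  apply Finset.sum_congr rfl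
  intro j _
  rw [← Nat.cast_add]

end Pool.Agent.helper76.LP
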